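import Pool.Agent.H72.LD.Equiv

/-!
# The log-rank conjecture and the dimension of partially ordered sets

For a finite partially ordered set `P` let `r` be the real rank of the 0/1 matrix of the strict order
and `D` its deterministic communication complexity. We show that the order dimension of `P` is at most
`2 ^ (D + 1)`, and that `D ≤ 1056 (log₂ r + 1) (log₂ r + 1 + log₂ t)`, if the fractional local
dimension of `P` is at most `t` (it is at most the dimension, the fractional dimension and the local
dimension). So the log-rank conjecture is equivalent to the statement that the dimension of every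
finite partially ordered set is at most quasipolynomial in the rank of its order matrix, and it is
enough to bound the fractional local dimension of partially ordered sets of height two.

Proof of the second inequality. The functions `x <_L y` of linear extensions `L` need not have small
rank or small communication complexity, but they have VC dimension one. A rectangle contains many
pairs with `¬ x < y`, or the value `1` dominates and a large monochromatic rectangle is found by a
linear algebra argument. In the first case a function of VC dimension one, which is zero only if
`¬ x < y`, has many zeros in the rectangle. The columns of this function fall into few clusters of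
similar columns (Haussler, Dudley), and the cluster of a column with many zeros gives a large rectangle
where `x < y` is rare, then one where it does not occur. For local dimension one takes for `x` and `y`
the first of the partial linear extensions in a random order in which the element occurs.
-/

set_option autoImplicit false

namespace Pool.Agent.Results.MP_e5d384_lc.OrderDimension

/-- Q1, as in the frozen statement S15531. -/
def LogRank : Prop :=
    ∃ C k : ℕ, ∀ n : ℕ, ∀ F : (Fin n → ZMod 2) → (Fin n → ZMod 2) → Bool,
      ∃ c : ℕ, ∃ owner : List Bool → Bool,
        ∃ a : List Bool → (Fin n → ZMod 2) → Bool,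
        ∃ b : List Bool → (Fin n → ZMod 2) → Bool,
        ∃ out : List Bool → Bool,
          (∀ x y : Fin n → ZMod 2,
            out (Nat.iterate
              (fun t : List Bool => t ++ [if owner t then a t x else b t y]) c []) = F x y) ∧
          (c : ℝ) ≤ (C : ℝ) * (Real.logb 2
              ((Matrix.of (fun x y : Fin n → ZMod 2 => if F x y then (1 : ℝ) else 0)).rank : ℝ)) ^ k
            + (C : ℝ)

/-- `F` has a deterministic protocol with `c` bits (protocols as in S15531). -/
def HasProtocol {X Y : Type} (F : X → Y → Bool) (c : ℕ) : Prop :=
  ∃ owner : List Bool → Bool, ∃ a : List Bool → X → Bool, ∃ b : List Bool → Y → Bool,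
    ∃ out : List Bool → Bool, ∀ x y,
      out (Nat.iterate (fun t : List Bool => t ++ [if owner t then a t x else b t y]) c []) = F x y

/-- The strict order. -/
noncomputable def less (P : Type) [PartialOrder P] (x y : P) : Bool := by
  classical exact decide (x < y)

/-- The logarithm (base 2) of the real rank of the 0/1 matrix of the strict order. -/
noncomputable def logRank (P : Type) [Fintype P] [PartialOrder P] : ℝ :=
  Real.logb 2 ((Matrix.of (fun x y : P => if less P x y then (1 : ℝ) else 0)).rank : ℝ)

/-- `P` has `m` linear extensions whose intersection is the order of `P`, that is, the dimension of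
`P` in the sense of Dushnik and Miller is at most `m`. Linear extensions are given by injective
functions `f j : P → ℤ`. -/
def Realizer (P : Type) [PartialOrder P] (m : ℕ) : Prop :=
  ∃ f : Fin m → P → ℤ, (∀ j, Function.Injective (f j)) ∧ ∀ x y : P, x ≤ y ↔ ∀ j, f j x ≤ f j y

/-- The fractional local dimension of `P` is at most `t`: for some `q ≥ 1` there is a finite family
of partial linear extensions (linear extensions of subsets `S j`, given by injective increasing
functions `f j` on `S j`) such that every element of `P` lies in at most `t q` of the sets `S j`, and,
if not `x ≤ y`, then `y` is below `x` in at least `q` of them. The local dimension is the case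
`q = 1`, the fractional dimension the case where `S j = P` for all `j`. -/
def LocalRealizer (P : Type) [PartialOrder P] (t : ℝ) : Prop :=
  ∃ (k q : ℕ) (S : Fin k → Set P) (f : Fin k → P → ℤ), 1 ≤ q ∧
    (∀ j, Set.InjOn (f j) (S j)) ∧ (∀ j, MonotoneOn (f j) (S j)) ∧
    (∀ x, (Nat.card {j // x ∈ S j} : ℝ) ≤ t * q) ∧
    ∀ x y : P, ¬ x ≤ y → q ≤ Nat.card {j // x ∈ S j ∧ y ∈ S j ∧ f j y < f j x}

/-- The dimension of finite partially ordered sets is at most quasipolynomial in the rank. -/
def DimForm : Prop :=
  ∃ C k : ℕ, ∀ (P : Type) [Fintype P] [PartialOrder P], ∃ m : ℕ, Realizer P m ∧
    Real.logb 2 (m : ℝ) ≤ C * logRank P ^ k + C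

/-- The fractional local dimension of finite partially ordered sets without chains of three elements
is at most quasipolynomial in the rank. -/
def LocalForm : Prop :=
  ∃ C k : ℕ, ∀ (P : Type) [Fintype P] [PartialOrder P], (∀ x y z : P, x < y → ¬ y < z) →
    ∃ t : ℝ, 1 ≤ t ∧ LocalRealizer P t ∧ Real.logb 2 t ≤ C * logRank P ^ k + C

/-- **The log-rank conjecture and order dimension.** Let `P` be a finite partially ordered set, `r`
the real rank of the 0/1 matrix of its strict order and `D` its deterministic communication
complexity.
(1) If the fractional local dimension of `P` is at most `t` (`t ≥ 1`), then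
`D ≤ 1056 (log₂ r + 1) (log₂ r + 1 + log₂ t)`.
(2) The dimension of `P` is at most `2 ^ (D + 1)`.
(3) The log-rank conjecture holds if and only if the dimension of every finite partially ordered set
is at most quasipolynomial in `r`.
(4) It holds if and only if the fractional local dimension of every finite partially ordered set of
height at most two is at most quasipolynomial in `r`. -/
theorem result :
    (∀ (P : Type) [Fintype P] [PartialOrder P] (t : ℝ), 1 ≤ t → LocalRealizer P t →
      ∃ b : ℕ, HasProtocol (less P) b ∧
        (b : ℝ) ≤ 1056 * (logRank P + 1) * (logRank P + 1 + Real.logb 2 t)) ∧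
    (∀ (P : Type) [Fintype P] [PartialOrder P] (b : ℕ), HasProtocol (less P) b →
      Realizer P (2 ^ (b + 1))) ∧
    (LogRank ↔ DimForm) ∧
    (LogRank ↔ LocalForm) := by
  have h1 : LogRank → DimForm := fun h => Pool.Agent.H72.LD.dimForm_of_logRank h
  have h2 : DimForm → LocalForm := fun h => Pool.Agent.H72.LD.localForm_of_dimForm h
  have h3 : LocalForm → LogRank := fun h => Pool.Agent.H72.LD.logRank_of_localForm h
  refine ⟨fun P _ _ t ht h => ?_, fun P _ _ b h => ?_, ⟨h1, fun h => h3 (h2 h)⟩,
    ⟨fun h => h2 (h1 h), h3⟩⟩
  · exact Pool.Agent.H72.LD.proto_local P t ht h
  · exact Pool.Agent.H72.LD.realizer_of_proto P b h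

end Pool.Agent.Results.MP_e5d384_lc.OrderDimension
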