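import Pool.Agent.H72.LD.PostEquiv

/-!
# The log-rank conjecture and post-selected protocols with outputs of small VC dimension

Gavinsky and Lovett proved that for matrices of small rank deterministic protocols are not much more
powerful than zero-communication protocols, in which the players may abort with a probability close to
one and only have to be right (with a constant advantage) under the condition that they do not abort.
In such protocols the set of the inputs for which a given value is output is a rectangle. Here these
sets are arbitrary sets of bounded VC dimension, which may have large rank, large sign rank and large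
communication complexity in all models. So the theorem is about the closure of the matrices of bounded
VC dimension under nondeterminism, bounded and one-sided error, approximate counting and
post-selection.

Proof. Repeat the protocol `g (⌈log₂ (r + 1)⌉ + 5)` times and abort unless all outputs agree. Then the
wrong output has less than `1 / (16 (r + 1))` times the probability of the right one, and the sets
where a value is output still have polynomial growth. By averaging, in every rectangle `A × B` there
are such a set `f` of density `2 ^ (- polylog)` and a value `v` such that `F ≠ v` only in a small part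
of `f`. The columns of `f` fall into few clusters of similar columns (Haussler, Dudley), and a large
cluster with many rows gives a rectangle where `F` is nearly constant, which contains a large
monochromatic rectangle by a linear algebra argument. Then one uses the argument of Nisan and
Wigderson.
-/

set_option autoImplicit false

namespace Pool.Agent.Results.MP_e5d384_lc.PostSelectedVC

/-- Q1, as in the frozen statement S15531. -/
def LogRank : Prop :=
    ∃ C k : ℕ, ∀ n : ℕ, ∀ F : (Fin n → ZMod 2) → (Fin n → ZMod 2) → Bool,
      ∃ c : ℕ, ∃ owner : List Bool → Bool,
        ∃ a : List Bool → (Fin n → ZMod 2) → Bool,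
        ∃ b : List Bool → (Fin n → ZMod 2) → Bool,
        ∃ out : List Bool → Bool,
          (∀ x y : Fin n → ZMod 2,
            out (Nat.iterate
              (fun t : List Bool => t ++ [if owner t then a t x else b t y]) c []) = F x y) ∧
          (c : ℝ) ≤ (C : ℝ) * (Real.logb 2
              ((Matrix.of (fun x y : Fin n → ZMod 2 => if F x y then (1 : ℝ) else 0)).rank : ℝ)) ^ k
            + (C : ℝ)

/-- The bits which are sent by a protocol with `c` bits on the input `(x, y)` (protocols as in
S15531). -/
def transcript {X Y : Type} (c : ℕ) (owner : List Bool → Bool) (a : List Bool → X → Bool)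
    (b : List Bool → Y → Bool) (x : X) (y : Y) : List Bool :=
  Nat.iterate (fun t : List Bool => t ++ [if owner t then a t x else b t y]) c []

/-- `F` has a deterministic protocol with `c` bits (as in S15531). -/
def HasProtocol {X Y : Type} (F : X → Y → Bool) (c : ℕ) : Prop :=
  ∃ owner : List Bool → Bool, ∃ a : List Bool → X → Bool, ∃ b : List Bool → Y → Bool,
    ∃ out : List Bool → Bool, ∀ x y, out (transcript c owner a b x y) = F x y

/-- The logarithm (base 2) of the real rank of the matrix of `F`. -/
noncomputable def logRank {X Y : Type} [Fintype X] [Fintype Y] (F : X → Y → Bool) : ℝ :=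
  Real.logb 2 ((Matrix.of (fun (x : X) (y : Y) => if F x y then (1 : ℝ) else 0)).rank : ℝ)

/-- The VC dimension of the columns of `F` (as sets of rows) is at most `d`: if all `2 ^ k` patterns
occur in some `k` rows, then `k ≤ d`. -/
def VCdim {X Y : Type} (F : X → Y → Bool) (d : ℕ) : Prop :=
  ∀ (k : ℕ) (x : Fin k → X), (∀ S : Fin k → Bool, ∃ y, ∀ i, F (x i) y = S i) → k ≤ d

/-- `F` has a post-selected representation by sets of VC dimension at most `d` with advantage `1 / g`
and acceptance `1 / t`: there are samples `i` with weights `p i` (of sum at most one), an output
`out i` and a set (function) `h i` of VC dimension at most `d` where the sample is used, such that for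
every pair `(x, y)` the used samples with the output `F x y` weigh at least `1 + 1 / g` times as much
as those with the other output, and all used samples together at least `1 / t`. -/
def PostVC {X Y : Type} (F : X → Y → Bool) (d g : ℕ) (t : ℝ) : Prop :=
  ∃ (N : ℕ) (h : Fin N → X → Y → Bool) (out : Fin N → Bool) (p : Fin N → ℝ),
    (∀ i, VCdim (h i) d) ∧ (∀ i, 0 ≤ p i) ∧ ∑ i, p i ≤ 1 ∧
    (∀ x y, ((g : ℝ) + 1) * (∑ i, if h i x y = true ∧ out i = !F x y then p i else 0) ≤
      g * ∑ i, if h i x y = true ∧ out i = F x y then p i else 0) ∧
    ∀ x y, 1 ≤ t * ∑ i, if h i x y = true then p i else 0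

/-- Every `F` has a post-selected representation with parameters `d`, `g`, `log₂ t` which are
polylogarithmic in the rank. -/
def PostForm : Prop :=
  ∃ C k : ℕ, ∀ n : ℕ, ∀ F : (Fin n → ZMod 2) → (Fin n → ZMod 2) → Bool,
    ∃ (d g : ℕ) (t : ℝ), 1 ≤ g ∧ 1 ≤ t ∧ PostVC F d g t ∧
      (d : ℝ) ≤ C * logRank F ^ k + C ∧ (g : ℝ) ≤ C * logRank F ^ k + C ∧
      Real.logb 2 t ≤ C * logRank F ^ k + C

/-- Every `F` is the conjunction of functions of VC dimension at most `d` whose number is
quasipolynomial in the rank. -/
def ConjForm (d : ℕ) : Prop :=
  ∃ C k : ℕ, ∀ n : ℕ, ∀ F : (Fin n → ZMod 2) → (Fin n → ZMod 2) → Bool,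
    ∃ (m : ℕ) (h : Fin m → (Fin n → ZMod 2) → (Fin n → ZMod 2) → Bool),
      (∀ j, VCdim (h j) d) ∧ (∀ x y, F x y = true ↔ ∀ j, h j x y = true) ∧
      Real.logb 2 (m : ℝ) ≤ C * logRank F ^ k + C

/-- **The log-rank conjecture for post-selected protocols with outputs of small VC dimension.**
(1) Let `F` be computed by a randomized protocol with `c` bits, given by a finite family of
deterministic protocols with probabilities `p ω`, whose leaves are labelled by functions of `(x, y)`
with the values true, false and none (abort) such that the sets where they are true and where they are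
false have VC dimension at most `d`. Suppose that for every `(x, y)` the probability of the output
`F x y` is at least `1 + 1 / g` times the probability of the wrong output, and the probability that
the protocol does not abort is at least `1 / t`. Then `F` has a deterministic protocol with at most
`2120 (d + 2) g ^ 2 (log₂ r + 1) ^ 3 (c + 2 + log₂ t)` bits, where `r` is the real rank of the matrix
of `F`.
(2) The log-rank conjecture holds if and only if every `F` has a post-selected representation by sets
of VC dimension `d` with advantage `1 / g` and acceptance `1 / t` such that `d`, `g` and `log₂ t` are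
polylogarithmic in the rank.
(3) For every `d ≥ 1` the log-rank conjecture holds if and only if every `F` is the conjunction of
functions of VC dimension at most `d` whose number is quasipolynomial in the rank. -/
theorem result :
    (∀ (X Y Ω : Type) [Fintype X] [Fintype Y] [Fintype Ω] (F : X → Y → Bool) (c d g : ℕ) (t : ℝ),
      1 ≤ g → 1 ≤ t → ∀ (owner : Ω → List Bool → Bool) (a : Ω → List Bool → X → Bool)
      (b : Ω → List Bool → Y → Bool) (h : Ω → List Bool → X → Y → Option Bool) (p : Ω → ℝ),
      (∀ ω τ v, VCdim (fun x y => decide (h ω τ x y = some v)) d) →
      (∀ ω, 0 ≤ p ω) → ∑ ω, p ω = 1 →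
      (∀ x y, ((g : ℝ) + 1) *
          (∑ ω, if h ω (transcript c (owner ω) (a ω) (b ω) x y) x y = some (!F x y)
            then p ω else 0) ≤
        g * ∑ ω, if h ω (transcript c (owner ω) (a ω) (b ω) x y) x y = some (F x y)
          then p ω else 0) →
      (∀ x y, 1 ≤ t * ∑ ω, if h ω (transcript c (owner ω) (a ω) (b ω) x y) x y ≠ none
        then p ω else 0) →
      ∃ bits : ℕ, HasProtocol F bits ∧ (bits : ℝ) ≤ 2120 * ((d : ℝ) + 2) * (g : ℝ) ^ 2 *
        (logRank F + 1) ^ 3 * (c + 2 + Real.logb 2 t)) ∧
    (LogRank ↔ PostForm) ∧
    (∀ d : ℕ, 1 ≤ d → (LogRank ↔ ConjForm d)) := by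
  refine ⟨?_, ⟨fun h => Pool.Agent.H72.LD.postForm_of_logRank h,
    fun h => Pool.Agent.H72.LD.logRank_of_postForm h⟩, fun d hd =>
    ⟨fun h => Pool.Agent.H72.LD.conjForm_of_logRank h d hd,
      fun h => Pool.Agent.H72.LD.logRank_of_conjForm d h⟩⟩
  intro X Y Ω _ _ _ F c d g t hg ht owner a b h p hd hp hp1 hgap htot
  exact Pool.Agent.H72.LD.post_protocol F c d g t hg ht owner a b h hd p hp hp1 hgap htot

end Pool.Agent.Results.MP_e5d384_lc.PostSelectedVC
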