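import Pool.Agent.H7.RD.Equiv

/-!
# The log-rank conjecture and the distances between the rows

Let `F` be a Boolean matrix of real rank `r` and let the columns have weights. If the (weighted)
Hamming distances between different rows avoid the multiples of a prime power `Q`, or take at most
`Q - 1` values from each row, then `F` has at most `Φ_{Q-1}(r) = ∑_{i < Q} (r choose i)` different
rows. The general inequality allows exceptional pairs of rows, weights depending on the row, several
moduli, and the isolation of the rows by any polynomials of low degree over any field with a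
valuation. Its local version with the theorem of Nisan and Wigderson gives protocols, and new
equivalent forms of the log-rank conjecture.

Proof. By Turán's theorem there is a large set `I` of rows without exceptional pairs. The matrix of
the values of the polynomial `P x` at the row `x'`, `x, x' ∈ I`, has a dominant diagonal with respect
to the valuation, so it is nonsingular. Its rows are polynomials of degree at most `e` in `r`
idempotent functions. For the multiples of `Q = p ^ a` take `P x = ∏_{0 < i < Q} (d - i)`, where `d`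
is the distance from the row `x`: the number `(d - 1 choose Q - 1)` is divisible by `p` unless `Q`
divides `d`.
-/

set_option autoImplicit false

namespace Pool.Agent.Results.MP_e5d384_lc.RowDistances

open Finset Pool.Agent.H7.RD Pool.Agent.H630R2.LR

/-- Notation: `rk F` is the real rank, `Phi r e = ∑ i ≤ e, (r choose i)`, `eqPairs F A B` is the set of
the pairs of rows in `A` which are equal on `B`, `dist F w x x'` is the sum of the weights of the
columns in which the rows `x`, `x'` are different.
(1) The main inequality.
(2) The rows of `A` are isolated, up to the pairs in `E`, if for all other pairs which are different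
on `B` one of `m` weighted distances is not divisible by its power of the prime `p`; the weights and
the moduli may depend on the row `x`.
(3) The rows are isolated if there are only few distances from each row.
(4) Protocols for matrices with isolated rows.
(5) Protocols for matrices with isolated rows in a large part of every rectangle.
(6) Equivalent forms of the log-rank conjecture. -/
theorem result :
    (∀ (X Y : Type) [Fintype X] [Fintype Y] (F : X → Y → Bool) (A : Finset X) (B : Finset Y)
      (e N : ℕ), Isolates F A B e N →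
      A.card ^ 2 + Phi (rk F) e * A.card ≤ 2 * Phi (rk F) e * ((eqPairs F A B).card + N)) ∧
    (∀ (X Y : Type) [Fintype X] [Fintype Y] (F : X → Y → Bool) (A : Finset X) (B : Finset Y)
      (e m p : ℕ), p.Prime → ∀ (a : X → Fin m → ℕ) (w : X → Fin m → Y → ℤ),
      (∀ x ∈ A, ∑ j, (p ^ a x j - 1) ≤ e) → ∀ E : Finset (X × X),
      (∀ x ∈ A, ∀ x' ∈ A, (∃ y ∈ B, F x y ≠ F x' y) → (x, x') ∉ E →
        ∃ j, ¬ ((p ^ a x j : ℕ) : ℤ) ∣ dist F (w x j) x x') → Isolates F A B e E.card) ∧
    (∀ (X Y : Type) [Fintype X] [Fintype Y] (F : X → Y → Bool) (A : Finset X) (B : Finset Y)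
      (e : ℕ) (w : X → Y → ℝ) (Z : X → Finset ℝ), (∀ x ∈ A, (Z x).card ≤ e ∧ (0 : ℝ) ∉ Z x) →
      ∀ E : Finset (X × X), (∀ x ∈ A, ∀ x' ∈ A, (∃ y ∈ B, F x y ≠ F x' y) → (x, x') ∉ E →
        dist F (w x) x x' ∈ Z x) → Isolates F A B e E.card) ∧
    (∀ (X Y : Type) [Fintype X] [Fintype Y] (F : X → Y → Bool) (A : Finset X) (e k : ℕ),
      (∀ x, ∃ x' ∈ A, ∀ y, F x' y = F x y) →
      (∀ x ∈ A, ∀ x' ∈ A, (∀ y, F x y = F x' y) → x = x') →
      Isolates F A univ e (k * A.card) →
        A.card ≤ (2 * k + 1) * Phi (rk F) e ∧
        Proto F (Nat.clog 2 ((2 * k + 1) * Phi (rk F) e) + 1)) ∧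
    (∀ (X Y : Type) [Fintype X] [Fintype Y] (F : X → Y → Bool) (G e : ℕ), 1 ≤ G →
      (∀ (A : Finset X) (B : Finset Y), A.Nonempty → B.Nonempty →
        ∃ A₁ ⊆ A, ∃ B₁ ⊆ B, ∃ N, A₁.Nonempty ∧ A.card * B.card ≤ G * (A₁.card * B₁.card) ∧
          4 * Phi (rk F) e * N ≤ A₁.card ^ 2 ∧ Isolates F A₁ B₁ e N) →
      Proto F (2 * Nat.clog 2 (16 * (rk F + 1) * G * Phi (rk F) e) * Nat.clog 2 (rk F) + 2)) ∧
    ((LogRank ↔ Local (fun F A B e N => ModDist F A B e N)) ∧
      (LogRank ↔ Local (fun F A B e N => FewDist F A B e N)) ∧
      (LogRank ↔ Local (fun F A B e N => Isolates F A B e N))) := by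
  have hmono : ∀ P Q : ∀ {X Y : Type} [Fintype X] [Fintype Y], (X → Y → Bool) → Finset X →
      Finset Y → ℕ → ℕ → Prop,
      (∀ {X Y : Type} [Fintype X] [Fintype Y] (F : X → Y → Bool) (A : Finset X) (B : Finset Y)
        (e N : ℕ), P F A B e N → Q F A B e N) → Local @P → Local @Q := by
    rintro P Q hPQ ⟨C, k, h⟩
    refine ⟨C, k, fun X Y _ _ _ _ F r hr hrk => ?_⟩
    obtain ⟨A, B, e, N, hA, hB, hc, he, hN, hP⟩ := h X Y F r hr hrk
    exact ⟨A, B, e, N, hA, hB, hc, he, hN, hPQ F A B e N hP⟩
  have h1 : LogRank → Local (fun F A B e N => ModDist F A B e N) := fun h =>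
    local_of_logRank h (fun F A B e N => ModDist F A B e N) (fun F A B v hv =>
      ⟨2, 1, 0, ∅, Nat.prime_two, by norm_num, by simp, fun x hx x' hx' ⟨y, hy, hne⟩ _ =>
        absurd ((hv x hx y hy).trans (hv x' hx' y hy).symm) hne⟩)
  have h2 : LogRank → Local (fun F A B e N => FewDist F A B e N) := fun h =>
    local_of_logRank h (fun F A B e N => FewDist F A B e N) (fun F A B v hv =>
      ⟨0, fun _ => ∅, ∅, fun _ _ => by simp, by simp, fun x hx x' hx' ⟨y, hy, hne⟩ _ =>
        absurd ((hv x hx y hy).trans (hv x' hx' y hy).symm) hne⟩)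
  have h3 : Local (fun F A B e N => ModDist F A B e N) →
      Local (fun F A B e N => Isolates F A B e N) :=
    hmono _ _ (fun F A B e N h => isolates_of_modDist F A B e N h)
  have h4 : Local (fun F A B e N => FewDist F A B e N) →
      Local (fun F A B e N => Isolates F A B e N) :=
    hmono _ _ (fun F A B e N h => isolates_of_fewDist F A B e N h)
  refine ⟨fun X Y _ _ F A B e N h => main_ineq F A B e N (rk F) le_rfl h,
    fun X Y _ _ F A B e m p hp a w ha E hE => isolates_mod F A B e m p hp a w ha E hE,
    fun X Y _ _ F A B e w Z hZ E hE => isolates_few F A B e w Z hZ E hE,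
    fun X Y _ _ F A e k hrep hdist hI => ?_,
    fun X Y _ _ F G e hG h => proto_local F G e hG h,
    ⟨h1, fun h => logRank_of_local (h3 h)⟩, ⟨h2, fun h => logRank_of_local (h4 h)⟩,
    ⟨fun h => h3 (h1 h), logRank_of_local⟩⟩
  have h := card_rows F A univ e k (rk F) le_rfl
    (fun x hx x' hx' h => hdist x hx x' hx' (fun y => h y (mem_univ y))) hI
  exact ⟨h, proto_of_reps F A _ h hrep⟩

end Pool.Agent.Results.MP_e5d384_lc.RowDistances
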