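import Pool.Agent.H7.SP.Count
import Pool.Agent.H7.SP.Plane

/-!
# The log-rank conjecture and the ranks modulo small primes

Let `R` be the real rank of a 0/1 matrix and `R_p` its rank over `ZMod p`. A minor of order `R` is
divisible by `p ^ (R - R_p)` for all `p`, and Hadamard's inequality bounds it. So for all primes `p`
in a set with product larger than `R` one has `R_p > R / 2` for some `p`. A prime of the order
`log R` is enough, and this order is the right one. Hence the real rank is up to the factor `2` the
maximum of the ranks modulo the primes `p = O(log R)`, and the log-rank conjecture says that functions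
with short counting protocols modulo these primes have short deterministic protocols.
-/

set_option autoImplicit false

namespace Pool.Agent.Results.MP_e5d384_lc.SmallPrimes

open Finset Pool.Agent.H7.RD Pool.Agent.H7.SP Pool.Agent.H630R2.LR

/-- Notation: `rk F` is the real rank and `rkp p F` the rank modulo `p` of the 0/1 matrix of `F`.
(1) The defects of the ranks modulo different primes, and a prime with a small defect in each set of
primes with a large product.
(2) A small prime with a small defect.
(3) Matrices for which the ranks modulo all primes up to `log₂ (rk F) / (4 t)` are at most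
`(3 / 4) ^ t * rk F`.
(4) Counting protocols modulo `p` and the rank modulo `p`.
(5) The log-rank conjecture is equivalent to the bound by the logarithm of the maximum of the ranks
modulo the small primes.
(6), (7) The log-rank conjecture is equivalent to the existence of short protocols for functions which
have short counting protocols modulo sufficiently many primes. -/
theorem result :
    (∀ (X Y : Type) [Fintype X] [Fintype Y] (F : X → Y → Bool) (P : Finset ℕ),
      (∀ p ∈ P, p.Prime) →
        (∀ p ∈ P, rkp p F ≤ rk F) ∧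
        ∏ p ∈ P, p ^ (2 * (rk F - rkp p F)) ≤ (rk F) ^ (rk F) ∧
        ∀ j : ℕ, 1 ≤ rk F → (rk F) ^ j < (∏ p ∈ P, p) ^ 2 →
          ∃ p ∈ P, j * (rk F - rkp p F) < rk F) ∧
    (∀ (X Y : Type) [Fintype X] [Fintype Y] (F : X → Y → Bool) (j : ℕ), 1 ≤ rk F →
      ∃ p, p.Prime ∧ p ≤ j * (Nat.log 2 (rk F) + 1) + 2500 ∧ j * (rk F - rkp p F) < rk F) ∧
    (∀ z t : ℕ, ∃ (X Y : Type) (_ : Fintype X) (_ : Fintype Y) (F : X → Y → Bool),
      rk F = (primorial z) ^ (2 * t) ∧ rk F ≤ 16 ^ (z * t) ∧
      ∀ p, p.Prime → p ≤ z → 4 ^ t * rkp p F ≤ 3 ^ t * rk F) ∧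
    (∀ (X Y : Type) [Fintype X] [Fintype Y] (F : X → Y → Bool) (p c : ℕ), p.Prime →
      (CountMod p c F → rkp p F ≤ 2 ^ c) ∧ (p * rkp p F ≤ 2 ^ c → CountMod p c F)) ∧
    (LogRank ↔ MaxForm) ∧
    (∀ (P : ℕ → Finset ℕ) (a b : ℕ), (∀ n, ∀ p ∈ P n, p.Prime ∧ p ≤ a * (n + 1) ^ b) →
      (∀ n, 2 ^ n < ∏ p ∈ P n, p) → (LogRank ↔ CountForm P)) ∧
    (LogRank ↔ CountForm (fun n => (range (2 * n + 2503)).filter Nat.Prime)) := by
  refine ⟨fun X Y _ _ F P hP => ⟨fun p hp => rkp_le_rk p (hP p hp) F, prod_pow_le F P hP,
    fun j hR hlt => ?_⟩, fun X Y _ _ F j hR => exists_prime F j hR, exists_tight,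
    fun X Y _ _ F p c hp => ⟨rkp_le_of_countMod p c hp F, countMod_of_rkp_le p c hp F⟩,
    logRank_iff_maxForm, logRank_iff_countForm, logRank_iff_countForm_primes⟩
  by_contra hcon
  push Not at hcon
  exact absurd (prod_sq_le F j hR P (fun p hp => ⟨hP p hp, hcon p hp⟩)) (not_le.mpr hlt)

end Pool.Agent.Results.MP_e5d384_lc.SmallPrimes
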